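import Pool.Agent.H321R2.OSI.Prob
import Pool.Agent.H321R2.OSI.Lower

/-!
# Q1: with a constant failure probability there is no relative error `1 + O(ε)`

A random `d × k` matrix `S` is an oblivious subspace injection (`IsOSI P S r α δ`) with dimension `r`, injectivity
`α` and failure probability `δ` if `E ‖Sᵀ x‖² = ‖x‖²` for all `x` and if for every fixed subspace `V` of dimension
`r`, with probability at least `1 - δ`, `‖Sᵀ x‖² ≥ α ‖x‖²` for all `x ∈ V`. `rsvd A S = (A S) (A S)⁺ A` is the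
randomized SVD, `frob` the Frobenius norm and `bestErr A r` the smallest Frobenius error of an approximation of `A`
of rank at most `r`.

We answer Q1 in the negative, for every constant failure probability `δ > 0` (for instance `δ = 1/100`): there are
one matrix `A`, one sketch size `k` and one random matrix `S` which is an OSI of dimension one with injectivity
`1 - ε` and failure probability `δ` **for all `ε ≥ 0` at the same time** and for which the error of the randomized SVD
exceeds `(1 + κ)` times the optimal error of rank one for every outcome, with `κ > 0`.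

Idea: a failure probability which does not tend to zero leaves room in the isotropy condition. If `S = 0` with
probability `1 / K`, the norms `‖Sᵀ x‖²` may be `K / (K - 1)` on the average on the remaining event, so a sketch of
FIXED size, whose norms fluctuate by less than the factor `1 - 1 / K`, has injectivity `1`. Here `Sᵀ` has the columns
`± b_j` with random signs, `b_j` unit vectors with inner products `≤ μ` in a dimension much smaller than their number
(polynomials of degree at most two over a prime field); such a sketch of fixed size adds a fixed proportion `≍ μ²` to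
the error. The vectors, the probability estimate and the lower bound for the error are in the starting files
`Pool/Agent/H321R2/OSI/LowCoh.lean`, `Counter.lean` and `Lower.lean`.
-/

set_option autoImplicit false

namespace Pool.Agent.Results.MP_082b65_an.ConstantFailure

open MeasureTheory Matrix Finset Pool.Agent.H321R2.OSI

/-- The assertion of Q1 with the constants `C` and `p₀`, for the failure probability `δ`: for all `0 < ε < 1`, every
real matrix `A` (`n × d`), every `1 ≤ r ≤ d` and every random `d × k` matrix `S` that is an oblivious subspace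
injection with dimension `r`, injectivity `1 - ε` and failure probability `δ`, there is an event `D` of probability at
least `p₀` on which the randomized SVD satisfies `‖A - Ã‖_F ≤ (1 + C ε) ‖A - A_r‖_F`. -/
def Bound (δ C p₀ : ℝ) : Prop :=
  ∀ ε : ℝ, 0 < ε → ε < 1 → ∀ (n d k r : ℕ), 1 ≤ r → r ≤ d → ∀ (A : Matrix (Fin n) (Fin d) ℝ)
      (W : Type) (_ : MeasurableSpace W) (P : Measure W) (_ : IsProbabilityMeasure P)
      (S : W → Matrix (Fin d) (Fin k) ℝ), IsOSI P S r (1 - ε) δ →
        ∃ D : Set W, MeasurableSet D ∧ p₀ ≤ P.real D ∧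
          ∀ w ∈ D, frob (A - rsvd A (S w)) ≤ (1 + C * ε) * bestErr A r

lemma bestErr_nonneg {n d : ℕ} (A : Matrix (Fin n) (Fin d) ℝ) (r : ℕ) : 0 ≤ bestErr A r := by
  unfold bestErr
  apply Real.sInf_nonneg
  rintro e ⟨B, _, rfl⟩
  exact Real.sqrt_nonneg _

/-- one matrix and one random matrix, for all `ε` -/
theorem example_all (δ : ℝ) (hδ : 0 < δ) : ∃ κ : ℝ, 0 < κ ∧ ∃ (d k : ℕ) (A : Matrix (Fin d) (Fin d) ℝ)
    (W : Type) (_ : MeasurableSpace W) (P : Measure W) (_ : IsProbabilityMeasure P)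
    (S : W → Matrix (Fin d) (Fin k) ℝ), 1 ≤ d ∧ (∀ ε : ℝ, 0 ≤ ε → IsOSI P S 1 (1 - ε) δ) ∧
    ∀ w, (1 + κ) * bestErr A 1 < frob (A - rsvd A (S w)) := by
  obtain ⟨K, hK⟩ := exists_nat_ge (max 2 (2 / δ))
  have hK2 : (2 : ℝ) ≤ K := (le_max_left _ _).trans hK
  have hKn : 2 ≤ K := by exact_mod_cast hK2
  have hKδ : 2 ≤ δ * K := by
    have := (le_max_right _ _).trans hK
    rw [div_le_iff₀ hδ] at this
    linarith
  have : NeZero K := ⟨by omega⟩
  have hK0 : (0 : ℝ) < K := by linarith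
  -- the parameters
  set μ : ℝ := 1 / (2 * (K : ℝ) ^ 2) with hμd
  have hμ0 : 0 < μ := by positivity
  have hμ1 : μ ≤ 1 / 8 := by
    rw [hμd]
    apply one_div_le_one_div_of_le (by norm_num)
    nlinarith
  have hμK : 2 * μ ^ 2 * (K : ℝ) ^ 3 ≤ 1 := by
    have h1 : 2 * μ ^ 2 * (K : ℝ) ^ 3 = 1 / (2 * K) := by
      rw [hμd]
      field_simp
    rw [h1, div_le_one (by positivity)]
    linarith
  set s : ℝ := μ / 2 with hs
  have hs0 : 0 < s := by positivity
  have hs1 : s ≤ 1 := by linarith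
  have hs2 : s ^ 2 ≤ 1 := by nlinarith
  obtain ⟨M, hM⟩ := exists_nat_ge (max (8 / s ^ 2) (4 / μ + 1))
  obtain ⟨p, hpM, hp⟩ := Nat.exists_infinite_primes M
  have : Fact p.Prime := ⟨hp⟩
  have hpM' : (M : ℝ) ≤ p := by exact_mod_cast hpM
  have hp1 : 8 / s ^ 2 ≤ p := ((le_max_left _ _).trans hM).trans hpM'
  have hp2 : 4 / μ + 1 ≤ p := ((le_max_right _ _).trans hM).trans hpM'
  have hpp : (1 : ℝ) < p := by exact_mod_cast hp.one_lt
  obtain ⟨w, hw1, hw2, hw3⟩ := exists_lowcoh (p := p)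
  have hb : ∀ j, gram (brow s w) j j = 1 := by
    intro j
    refine Fin.cases (gram_brow_zero s w) (fun j => ?_) j
    rw [gram_brow_succ s hs2, hw1]
    ring
  have hinv : 1 / ((p : ℝ) - 1) ≤ μ / 4 := by
    rw [div_le_div_iff₀ (by linarith) (by norm_num)]
    have h1 : 4 / μ ≤ (p : ℝ) - 1 := by linarith
    rw [div_le_iff₀ hμ0] at h1
    linarith
  have hμb : ∀ j l, j ≠ l → |gram (brow s w) j l| ≤ μ := by
    intro j l hjl
    induction j using Fin.cases with
    | zero =>
      induction l using Fin.cases with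
      | zero => exact absurd rfl hjl
      | succ l =>
        rw [gram_brow_zero_succ, abs_of_pos hs0]
        linarith
    | succ j =>
      induction l using Fin.cases with
      | zero =>
        rw [gram_symm, gram_brow_zero_succ, abs_of_pos hs0]
        linarith
      | succ l =>
        have hne : j ≠ l := fun h => hjl (by rw [h])
        rw [gram_brow_succ s hs2]
        have h1 := hw2 j l hne
        have h3 : 0 ≤ 1 - s ^ 2 := by linarith
        calc |s ^ 2 + (1 - s ^ 2) * ∑ i, w j i * w l i|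
            ≤ |s ^ 2| + |(1 - s ^ 2) * ∑ i, w j i * w l i| := abs_add_le _ _
          _ = s ^ 2 + (1 - s ^ 2) * |∑ i, w j i * w l i| := by
              rw [abs_of_nonneg (sq_nonneg s), abs_mul, abs_of_nonneg h3]
          _ ≤ s ^ 2 + 1 * (1 / ((p : ℝ) - 1)) := by
              refine add_le_add le_rfl (mul_le_mul (by nlinarith [sq_nonneg s]) h1 (abs_nonneg _) zero_le_one)
          _ ≤ μ := by
              rw [hs]
              nlinarith
  have hN0 : 0 < p ^ 3 := pow_pos hp.pos 3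
  have hsp : 0 < s ^ 2 := by positivity
  have hk : (((p ^ 2 : ℕ) : ℝ) + 1) ≤ ((p ^ 3 : ℕ) : ℝ) * s ^ 2 / 4 := by
    push_cast
    rw [div_le_iff₀ hsp] at hp1
    have h1 : (p : ℝ) ^ 2 * 8 ≤ (p : ℝ) ^ 2 * (p * s ^ 2) := mul_le_mul_of_nonneg_left hp1 (by positivity)
    have h2 : (p : ℝ) ^ 3 * s ^ 2 = (p : ℝ) ^ 2 * (p * s ^ 2) := by ring
    have h3 : (1 : ℝ) ≤ (p : ℝ) ^ 2 := by nlinarith
    rw [h2]
    linarith
  refine ⟨s ^ 2 / 16, by positivity, p ^ 3 + 1, p ^ 2 + 1, diagonal (avec (p ^ 3)), Smp K (p ^ 3 + 1),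
    inferInstance, unif (Smp K (p ^ 3 + 1)), inferInstance, Smat K (brow s w), by omega, ?_, ?_⟩
  · intro ε hε
    exact isOSI_Smat hKn (brow s w) hb μ hμb hμK δ hKδ ε hε
  · intro ω
    have h1 := err_lower hKn s hs1 hs0 w hw3 hN0 hk ω
    have h2 := bestErr_le (p ^ 3)
    have h0 := bestErr_nonneg (diagonal (avec (p ^ 3))) 1
    have hNr : (0 : ℝ) < ((p ^ 3 : ℕ) : ℝ) := by exact_mod_cast hN0
    have h3 : bestErr (diagonal (avec (p ^ 3))) 1 ^ 2 ≤ ((p ^ 3 : ℕ) : ℝ) := by
      calc bestErr (diagonal (avec (p ^ 3))) 1 ^ 2 ≤ (Real.sqrt ((p ^ 3 : ℕ) : ℝ)) ^ 2 :=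
            pow_le_pow_left₀ h0 h2 2
        _ = _ := Real.sq_sqrt hNr.le
    refine lt_of_pow_lt_pow_left₀ 2 (Real.sqrt_nonneg _) ?_
    refine lt_of_lt_of_le ?_ h1
    rw [mul_pow]
    have h4 : (1 + s ^ 2 / 16) ^ 2 < 1 + s ^ 2 / 4 := by nlinarith
    calc (1 + s ^ 2 / 16) ^ 2 * bestErr (diagonal (avec (p ^ 3))) 1 ^ 2
        ≤ (1 + s ^ 2 / 16) ^ 2 * ((p ^ 3 : ℕ) : ℝ) := mul_le_mul_of_nonneg_left h3 (by positivity)
      _ < (1 + s ^ 2 / 4) * ((p ^ 3 : ℕ) : ℝ) := mul_lt_mul_of_pos_right h4 hNr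
      _ = _ := mul_comm _ _

/-- **Negative answer to Q1.** (1) For every failure probability `δ > 0` there are `κ > 0`, a square matrix `A` and a
random matrix `S` which is an OSI with dimension `1`, injectivity `1 - ε` and failure probability `δ` for all `ε ≥ 0`,
such that for every outcome the error of the randomized SVD is more than `1 + κ` times the optimal error of rank one.
(2) So the assertion of Q1 is false for all constants `C` and `p₀ > 0` and every constant failure probability `δ > 0`.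
(3) In particular it is false for `δ = 1 / 100`, even if only `ε ≤ ε₀` is considered, for any `ε₀ > 0`. -/
theorem result :
    (∀ δ : ℝ, 0 < δ → ∃ κ : ℝ, 0 < κ ∧ ∃ (d k : ℕ) (A : Matrix (Fin d) (Fin d) ℝ)
      (W : Type) (_ : MeasurableSpace W) (P : Measure W) (_ : IsProbabilityMeasure P)
      (S : W → Matrix (Fin d) (Fin k) ℝ), 1 ≤ d ∧ (∀ ε : ℝ, 0 ≤ ε → IsOSI P S 1 (1 - ε) δ) ∧
      ∀ w, (1 + κ) * bestErr A 1 < frob (A - rsvd A (S w))) ∧
    (∀ δ : ℝ, 0 < δ → ∀ C p₀ : ℝ, 0 < p₀ → ¬ Bound δ C p₀) ∧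
    (∀ ε₀ C p₀ : ℝ, 0 < ε₀ → 0 < p₀ → ∃ ε : ℝ, 0 < ε ∧ ε < ε₀ ∧ ε < 1 ∧ ∃ (d k : ℕ) (A : Matrix (Fin d) (Fin d) ℝ)
      (W : Type) (_ : MeasurableSpace W) (P : Measure W) (_ : IsProbabilityMeasure P)
      (S : W → Matrix (Fin d) (Fin k) ℝ), 1 ≤ d ∧ IsOSI P S 1 (1 - ε) (1 / 100) ∧
      ∀ w, (1 + C * ε) * bestErr A 1 < frob (A - rsvd A (S w))) := by
  have key : ∀ δ : ℝ, 0 < δ → ∀ ε₀ C : ℝ, 0 < ε₀ → ∃ ε : ℝ, 0 < ε ∧ ε < ε₀ ∧ ε < 1 ∧ ∃ (d k : ℕ)
      (A : Matrix (Fin d) (Fin d) ℝ)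
      (W : Type) (_ : MeasurableSpace W) (P : Measure W) (_ : IsProbabilityMeasure P)
      (S : W → Matrix (Fin d) (Fin k) ℝ), 1 ≤ d ∧ IsOSI P S 1 (1 - ε) δ ∧
      ∀ w, (1 + C * ε) * bestErr A 1 < frob (A - rsvd A (S w)) := by
    intro δ hδ ε₀ C hε₀
    obtain ⟨κ, hκ, d, k, A, W, mW, P, hP, S, hd, hS, hw⟩ := example_all δ hδ
    set ε : ℝ := min (min (ε₀ / 2) (1 / 2)) (κ / (|C| + 1)) with hε
    have hC : 0 < |C| + 1 := by positivity
    have h1 : 0 < ε := by
      rw [hε]
      exact lt_min (lt_min (by linarith) (by norm_num)) (div_pos hκ hC)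
    have h2 : ε ≤ ε₀ / 2 := (min_le_left _ _).trans (min_le_left _ _)
    have h3 : ε ≤ 1 / 2 := (min_le_left _ _).trans (min_le_right _ _)
    have h4 : ε ≤ κ / (|C| + 1) := min_le_right _ _
    rw [le_div_iff₀ hC] at h4
    refine ⟨ε, h1, by linarith, by linarith, d, k, A, W, mW, P, hP, S, hd, hS ε h1.le, fun w => ?_⟩
    refine lt_of_le_of_lt ?_ (hw w)
    refine mul_le_mul_of_nonneg_right ?_ (bestErr_nonneg A 1)
    have h5 : C * ε ≤ |C| * ε := mul_le_mul_of_nonneg_right (le_abs_self C) h1.le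
    nlinarith
  refine ⟨example_all, fun δ hδ C p₀ hp h => ?_, fun ε₀ C p₀ hε₀ _ => key (1 / 100) (by norm_num) ε₀ C hε₀⟩
  obtain ⟨ε, hε0, -, hε1, d, k, A, W, mW, P, hP, S, hd, hS, hw⟩ := key δ hδ 1 C one_pos
  obtain ⟨D, hD, hD1, hD2⟩ := h ε hε0 hε1 d d k 1 le_rfl hd A W mW P hP S hS
  have hne : D.Nonempty := by
    by_contra hc
    rw [Set.not_nonempty_iff_eq_empty] at hc
    rw [hc, measureReal_empty] at hD1
    linarith
  obtain ⟨w, hwD⟩ := hne
  exact absurd (hD2 w hwD) (not_le.2 (hw w))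

end Pool.Agent.Results.MP_082b65_an.ConstantFailure
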